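import Pool.Agent.Y354.DC3.Stm

/-!
# Project DC3 (helper354): the pointwise inequality
-/

set_option autoImplicit false

open Finset
open scoped Classical

namespace Pool.Agent.Y492.DC3

open Pool.Agent.Y354.DC3

variable {V : Type} {N : V → V → V → Prop} {k : ℕ}

theorem crit (hS : Sy N) (x : Fin (k + 1) → V) (v : V) (i j : Fin (k + 1)) (hij : i ≠ j)
    (hAl : Al N (rm x j) v) (hAd : Ad N (rm x i) (x i) v) (m : Fin (k + 1)) (hmi : m ≠ i) :
    N (x i) v (x m) ↔ m = j := by
  have key : ∀ m : Fin (k + 1), m ≠ i → N (x i) v (x m) → m = j := by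
    intro m hmi h
    by_contra hmj
    obtain ⟨a, ha⟩ := Fin.exists_succAbove_eq hij
    obtain ⟨b, hb⟩ := Fin.exists_succAbove_eq hmj
    have hab : a ≠ b := by
      rintro rfl
      exact hmi (hb.symm.trans ha)
    apply hAl a b hab
    show N v (x (j.succAbove a)) (x (j.succAbove b))
    rw [ha, hb]
    exact hS.1 _ _ _ h
  constructor
  · exact key m hmi
  · rintro rfl
    obtain ⟨l, hl⟩ := hAd
    have h1 : N (x i) v (x (i.succAbove l)) := hl
    have h2 := key (i.succAbove l) (Fin.succAbove_ne i l) h1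
    rw [h2] at h1
    exact h1

theorem bad (hS : Sy N) (x : Fin (k + 1) → V) (v u : V) (i j l : Fin (k + 1)) (hij : i ≠ j)
    (hl : ∀ m, N v u (x m) ↔ m = l) (hli : l ≠ i) (hlj : l ≠ j)
    (hAv : Al N (rm x j) v) (hAu : Al N (rm x j) u)
    (hBv : Ad N (rm x i) (x i) v) (hBu : Ad N (rm x i) (x i) u) :
    Bad N (rm x i) (x i) v u := by
  obtain ⟨l', hl'⟩ := Fin.exists_succAbove_eq hli
  obtain ⟨j', hj'⟩ := Fin.exists_succAbove_eq hij.symm
  have inj : ∀ m, ∀ n, i.succAbove m = i.succAbove n ↔ m = n := fun m n =>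
    (Fin.succAbove_right_injective (p := i)).eq_iff
  refine ⟨?_, l', j', ?_, ?_, ?_, ?_⟩
  · intro h
    have h1 : N v u (x i) := hS.2 _ _ _ (hS.1 _ _ _ h)
    exact hli ((hl i).mp h1).symm
  · rintro rfl
    exact hlj (hl'.symm.trans hj')
  · intro m
    show N v u (x (i.succAbove m)) ↔ m = l'
    rw [hl, ← hl', inj]
  · intro m
    show N (x i) v (x (i.succAbove m)) ↔ m = j'
    rw [crit hS x v i j hij hAv hBv _ (Fin.succAbove_ne i m), ← hj', inj]
  · intro m
    show N (x i) u (x (i.succAbove m)) ↔ m = j'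
    rw [crit hS x u i j hij hAu hBu _ (Fin.succAbove_ne i m), ← hj', inj]

theorem s_t1 (hAL : S_AL) (hCR : S_CR) : S_T1 := by
  intro V N hS k x v u
  have hv : ∀ i, Al N x v ↔ Al N (rm x i) v ∧ ¬ Ad N (rm x i) (x i) v := fun i =>
    (hAL V N hS k i x).2.1 v
  have hu : ∀ i, Al N x u ↔ Al N (rm x i) u ∧ ¬ Ad N (rm x i) (x i) u := fun i =>
    (hAL V N hS k i x).2.1 u
  have hd : ∀ i, Ad N x v u ↔ Ad N (rm x i) v u ∨ N v u (x i) := fun i =>
    (hAL V N hS k i x).2.2 v u
  have hcr : ∀ a, ¬ Al N x a →
      (univ.filter (fun i : Fin (k + 1) => Al N (rm x i) a ∧ Ad N (rm x i) (x i) a)).card ≤ 2 := by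
    intro a ha
    have h := hCR V N hS k x a
    rw [I, if_neg ha] at h
    have h2 : ((univ.filter (fun i : Fin (k + 1) =>
      Al N (rm x i) a ∧ Ad N (rm x i) (x i) a)).card : ℝ) ≤ (2 : ℕ) := by
      refine h.trans ?_
      norm_num
    exact_mod_cast h2
  have hSpos : Ad N x v u → 1 ≤ S N x v u := by
    rintro ⟨l, hl⟩
    exact Finset.card_pos.mpr ⟨l, by simp [hl]⟩
  -- the set of the positions with a share
  set t : Fin (k + 1) → ℕ := fun i => tw N (rm x i) (x i) v u with ht
  have hne : ∀ i, t i ≠ 0 → Al N (rm x i) v ∧ Al N (rm x i) u ∧ Ad N (rm x i) v u := by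
    intro i hi
    by_contra h
    exact hi (by simp only [ht, tw, if_pos h])
  have hle2 : ∀ i, t i ≤ 2 := by
    intro i
    simp only [ht, tw]
    split_ifs <;> omega
  set T : Finset (Fin (k + 1)) := univ.filter (fun i => t i ≠ 0) with hT
  have hsum : ∑ i : Fin (k + 1), t i = ∑ i ∈ T, t i := by
    rw [hT, Finset.sum_filter_ne_zero]
  have hTS : T.Nonempty → 1 ≤ S N x v u := by
    rintro ⟨i, hi⟩
    have hi' : t i ≠ 0 := by simpa [hT] using hi
    exact hSpos ((hd i).mpr (Or.inl (hne i hi').2.2))
  by_cases hA : Al N x v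
  · by_cases hB : Al N x u
    · -- both allowed
      have h0 : ∀ i, t i = 0 := by
        intro i
        have h1 := ((hv i).mp hA).2
        have h2 := ((hu i).mp hB).2
        simp only [ht, tw]
        split_ifs <;> first | rfl | (exfalso; tauto)
      have : ∑ i : Fin (k + 1), t i = 0 := Finset.sum_eq_zero fun i _ => h0 i
      rw [this, add_zero]
      split_ifs with h
      · have := hSpos h.2.2
        omega
      · omega
    · -- only v allowed
      rw [if_neg (fun h => hB h.2.1), zero_add, hsum]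
      have hle1 : ∀ i, t i ≤ 1 := by
        intro i
        have h1 := ((hv i).mp hA).2
        simp only [ht, tw]
        split_ifs <;> first | omega | (exfalso; tauto)
      have hTJ : T ⊆ univ.filter (fun i : Fin (k + 1) =>
          Al N (rm x i) u ∧ Ad N (rm x i) (x i) u) := by
        intro i hi
        have hi' : t i ≠ 0 := by simpa [hT] using hi
        have h1 := hne i hi'
        have h2 : Ad N (rm x i) (x i) u := by
          by_contra hcon
          exact hB ((hu i).mpr ⟨h1.2.1, hcon⟩)
        simp [h1.2.1, h2]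
      have hc := (Finset.card_le_card hTJ).trans (hcr u hB)
      have hs : ∑ i ∈ T, t i ≤ T.card := by
        calc ∑ i ∈ T, t i ≤ ∑ i ∈ T, 1 := Finset.sum_le_sum fun i _ => hle1 i
          _ = T.card := by simp
      rcases T.eq_empty_or_nonempty with h | h
      · rw [h]; simp
      · have := hTS h
        omega
  · have hTJ : T ⊆ univ.filter (fun i : Fin (k + 1) =>
        Al N (rm x i) v ∧ Ad N (rm x i) (x i) v) := by
      intro i hi
      have hi' : t i ≠ 0 := by simpa [hT] using hi
      have h1 := hne i hi'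
      have h2 : Ad N (rm x i) (x i) v := by
        by_contra hcon
        exact hA ((hv i).mpr ⟨h1.1, hcon⟩)
      simp [h1.1, h2]
    have hc := (Finset.card_le_card hTJ).trans (hcr v hA)
    rw [if_neg (fun h => hA h.1), zero_add, hsum]
    by_cases hB : Al N x u
    · have hle1 : ∀ i, t i ≤ 1 := by
        intro i
        have h1 := ((hu i).mp hB).2
        simp only [ht, tw]
        split_ifs <;> first | omega | (exfalso; tauto)
      have hs : ∑ i ∈ T, t i ≤ T.card := by
        calc ∑ i ∈ T, t i ≤ ∑ i ∈ T, 1 := Finset.sum_le_sum fun i _ => hle1 i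
          _ = T.card := by simp
      rcases T.eq_empty_or_nonempty with h | h
      · rw [h]; simp
      · have := hTS h
        omega
    · -- both blocked
      have hs2 : ∑ i ∈ T, t i ≤ 2 * T.card := by
        calc ∑ i ∈ T, t i ≤ ∑ i ∈ T, 2 := Finset.sum_le_sum fun i _ => hle2 i
          _ = 2 * T.card := by simp [mul_comm]
      rcases T.eq_empty_or_nonempty with h | h
      · rw [h]; simp
      have hS1 := hTS h
      by_cases hcard : T.card ≤ 1
      · omega
      have hcard2 : T.card = 2 := by omega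
      by_cases hS2 : 2 ≤ S N x v u
      · omega
      have hS3 : S N x v u = 1 := by omega
      obtain ⟨i, j, hij, hTij⟩ := Finset.card_eq_two.mp hcard2
      obtain ⟨l, hl⟩ := Finset.card_eq_one.mp hS3
      have hl' : ∀ m, N v u (x m) ↔ m = l := by
        intro m
        have := Finset.ext_iff.mp hl m
        simpa using this
      have hi : i ∈ T := by rw [hTij]; simp
      have hj : j ∈ T := by rw [hTij]; simp
      have hi' : t i ≠ 0 := by simpa [hT] using hi
      have hj' : t j ≠ 0 := by simpa [hT] using hj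
      have fi := hne i hi'
      have fj := hne j hj'
      have gl : ∀ i, Ad N (rm x i) v u → l ≠ i := by
        rintro i ⟨m, hm⟩ rfl
        have h1 : N v u (x (l.succAbove m)) := hm
        exact Fin.succAbove_ne l m ((hl' _).mp h1)
      have gv : ∀ i, Al N (rm x i) v → Ad N (rm x i) (x i) v := by
        intro i h1
        by_contra hcon
        exact hA ((hv i).mpr ⟨h1, hcon⟩)
      have gu : ∀ i, Al N (rm x i) u → Ad N (rm x i) (x i) u := by
        intro i h1
        by_contra hcon
        exact hB ((hu i).mpr ⟨h1, hcon⟩)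
      have bi : Bad N (rm x i) (x i) v u := bad hS x v u i j l hij hl' (gl i fi.2.2)
        (gl j fj.2.2) fj.1 fj.2.1 (gv i fi.1) (gu i fi.2.1)
      have bj : Bad N (rm x j) (x j) v u := bad hS x v u j i l hij.symm hl' (gl j fj.2.2)
        (gl i fi.2.2) fi.1 fi.2.1 (gv j fj.1) (gu j fj.2.1)
      have ti : t i ≤ 1 := by
        simp only [ht, tw]
        split_ifs <;> omega
      have tj : t j ≤ 1 := by
        simp only [ht, tw]
        split_ifs <;> omega
      rw [hTij, Finset.sum_pair hij]
      omega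

end Pool.Agent.Y492.DC3
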